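import Pool.Agent.Helper97.CP2.Fin

set_option autoImplicit false

open MeasureTheory ProbabilityTheory Filter

namespace Pool.Agent.Results.MP_1e2dfa_pr.PlanarCriticalFreeEnergy

/-- Directed polymer on `ℤ²` in a Gaussian environment, white in time, with bounded symmetric
positive definite spatial correlation `h`, `h 0 = 1`, `h x ~ |x|⁻²`: the almost sure free energy
`p` of the normalised partition function satisfies `β log (-p β) → -π/√2` as `β ↓ 0`. -/
theorem result :
  ∀ (h : (Fin 2 → ℤ) → ℝ),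
    (∃ M : ℝ, ∀ x, |h x| ≤ M) →
    (∀ x, h (-x) = h x) →
    (∀ (s : Finset (Fin 2 → ℤ)) (a : (Fin 2 → ℤ) → ℝ),
        0 ≤ Finset.sum s (fun x => Finset.sum s (fun y => a x * a y * h (x - y)))) →
    h 0 = 1 →
    Tendsto (fun x : Fin 2 → ℤ => h x * Finset.sum Finset.univ (fun i : Fin 2 => ((x i : ℝ)) ^ 2))
      cofinite (nhds 1) →
    ∀ (Ω : Type) [MeasurableSpace Ω] (P : Measure Ω) [IsProbabilityMeasure P]
      (ω : ℕ → (Fin 2 → ℤ) → Ω → ℝ),
      (∀ n x, Measurable (ω n x)) →
      (∀ (s : Finset (ℕ × (Fin 2 → ℤ))) (a : ℕ × (Fin 2 → ℤ) → ℝ),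
        P.map (fun w => Finset.sum s (fun i => a i * ω i.1 i.2 w)) =
          gaussianReal 0 (Real.toNNReal
            (Finset.sum s (fun i => Finset.sum s (fun j =>
              a i * a j * (if i.1 = j.1 then h (i.2 - j.2) else 0)))))) →
      ∀ p : ℝ → ℝ,
        (∀ β : ℝ, 0 < β → Filter.Eventually (fun w =>
          Tendsto
            (fun N : ℕ => Real.log (((4 : ℝ) ^ N)⁻¹ *
              Finset.sum Finset.univ (fun σ : Fin N → Fin 2 × Bool =>
                Real.exp (Finset.sum (Finset.Icc 1 N) (fun n =>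
                  β * ω n (Finset.sum (Finset.univ.filter (fun k : Fin N => k.val < n))
                      (fun k => (Pi.single (σ k).1 (if (σ k).2 then (1 : ℤ) else -1) : Fin 2 → ℤ))) w
                    - β ^ 2 / 2)))) / (N : ℝ))
            atTop (nhds (p β))) (ae P)) →
        Tendsto (fun β : ℝ => Real.log (-p β) * β) (nhdsWithin 0 (Set.Ioi 0))
          (nhds (-(Real.pi / √2))) := by
  intro h _ hs hpsd h0 hl Ω _ P _ ω hm hlin p hp
  have H : Pool.Agent.Helper97.CP.HH h := Pool.Agent.Helper97.CP.HH_of hs hpsd h0 hl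
  have g : Pool.Agent.Helper97.CP.GEnv P ω h :=
    Pool.Agent.Helper97.CP.GEnv.of_lin hm H.h0 H.bd H.sym hlin
  apply Pool.Agent.Helper97.CP.final H g p
  intro β hβ
  filter_upwards [hp β hβ] with w hw
  have e : ∀ N : ℕ, Pool.Agent.Helper97.CP.Wf β N 0 (Pool.Agent.Helper97.CP.En ω w) =
      (((4 : ℝ) ^ N)⁻¹ *
              Finset.sum Finset.univ (fun σ : Fin N → Fin 2 × Bool =>
                Real.exp (Finset.sum (Finset.Icc 1 N) (fun n =>
                  β * ω n (Finset.sum (Finset.univ.filter (fun k : Fin N => k.val < n))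
                      (fun k => (Pi.single (σ k).1 (if (σ k).2 then (1 : ℤ) else -1) : Fin 2 → ℤ))) w
                    - β ^ 2 / 2)))) := by
    intro N
    simp only [Pool.Agent.Helper97.CP.Wf, Pool.Agent.Helper97.CP.ES, Pool.Agent.Helper97.CP.wtf,
      Pool.Agent.Helper97.CP.path, Pool.Agent.Helper97.CP.pos, Pool.Agent.Helper97.CP.En, zero_add]
    rfl
  simp only [e]
  exact hw

end Pool.Agent.Results.MP_1e2dfa_pr.PlanarCriticalFreeEnergy
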